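import Pool.Agent.Q45.Tup.Dig

/-!
# Five consecutive odd integers, exactly four of which are rough, isolated, with restricted digits, near every base point

For large `r` the integers `m` such that `m`, `m + 2`, `m + 6`, `m + 8` have at most `r` prime factors, all larger than
`y ^ (1 / r)` (`m` has about the size `y`, or up to `y ^ E`), and such that NO OTHER integer of `[m - L, m + 8 + L]` has only
prime factors larger than `y ^ (1 / r)`, are counted up to a constant factor among the integers with restricted digits: let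
`g ≥ 2` be a base, `y = g ^ K`, and for every `i < K` let `A i` be an ARBITRARY set of digits, subject only to the condition
that `|A 0| ⋯ |A (K - 1)| ≥ exp (- c K) g ^ K`. For every base point `N ≤ g ^ (E K)` the number of the `j < g ^ K` with
`i`-th digit in `A i` for which `m = N + j + L` has the property is at least `κ |A 0| ⋯ |A (K - 1)| / K ^ 4`, the expected
order, unless there is an obvious obstruction. The number of the `j` with these digits for which `n = N + j + L` is good
(`n > 3` is odd and at least four of `n, n + 2, …, n + 8` are primes) is at most `C |A 0| ⋯ |A (K - 1)| / K ^ 4`.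
-/

set_option autoImplicit false

namespace Pool.Agent.Results.MP_fc51f7_nt.ConsecutiveRoughQuadruplets

open Filter Finset
open Pool.Agent.Q45.Tup.Dig (HasDigits choices Rough count)

/-- `n` is odd and at least four of `n, n + 2, n + 4, n + 6, n + 8` are primes -/
def Good (n : ℕ) : Prop := Odd n ∧ 4 ≤ ((range 5).filter (fun i => (n + 2 * i).Prime)).card

/-- The rough numbers (all prime factors larger than `y ^ (1 / r)`) in `[n, n + 8 + 2 L]` are exactly `m = n + L`, `m + 2`,
`m + 6`, `m + 8`, and these have at most `r` prime factors (counted with multiplicity). -/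
def IsolatedQuadruplet (L y r n : ℕ) : Prop :=
  (∀ e ≤ 8 + 2 * L, (Rough y r (n + e) ↔ e = L ∨ e = L + 2 ∨ e = L + 6 ∨ e = L + 8)) ∧
    ∀ e : ℕ, (e = L ∨ e = L + 2 ∨ e = L + 6 ∨ e = L + 8) → (n + e).primeFactorsList.length ≤ r

/-- the pattern -/
def H (L : ℕ) : Finset ℕ := {L, L + 2, L + 6, L + 8}

lemma mem_H (L e : ℕ) : e ∈ H L ↔ e = L ∨ e = L + 2 ∨ e = L + 6 ∨ e = L + 8 := by
  unfold H
  simp only [mem_insert, mem_singleton]

lemma card_H (L : ℕ) : (H L).card = 4 := by
  unfold H
  rw [card_insert_of_notMem, card_insert_of_notMem, card_insert_of_notMem, card_singleton]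
  · simp
  · simp only [mem_insert, mem_singleton]; omega
  · simp only [mem_insert, mem_singleton]; omega

lemma adm (L : ℕ) : Pool.Agent.Q45.Tup.Dig.Admissible (H L) := by
  intro q hq
  by_contra hcon
  push Not at hcon
  have h1 := Pool.Agent.Q45.Tup.Dig.le_card hq hcon
  rw [card_H] at h1
  have h2 := hq.two_le
  have h4 : q ≠ 4 := fun h => absurd (h ▸ hq) (by norm_num)
  have h5 : q = 2 ∨ q = 3 := by omega
  obtain ⟨e, he, hd⟩ := hcon (5 * L + 5)
  rw [mem_H] at he
  rcases h5 with rfl | rfl <;> rcases he with rfl | rfl | rfl | rfl <;> omega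

/-- a good integer `n > 3` is the first member of a prime quadruplet -/
lemma good_iff (n : ℕ) (hn : 3 < n) (h : Good n) : n.Prime ∧ (n + 2).Prime ∧ (n + 6).Prime ∧ (n + 8).Prime := by
  obtain ⟨-, h4⟩ := h
  have h3 : ∀ m : ℕ, 3 < m → 3 ∣ m → ¬ m.Prime := by
    intro m hm hd hp
    have := (Nat.prime_dvd_prime_iff_eq Nat.prime_three hp).1 hd
    omega
  have hno : ∀ i j : ℕ, i < 5 → j < 5 → i ≠ j → ¬ (n + 2 * i).Prime → ¬ (n + 2 * j).Prime → False := by
    intro i j hi hj hij hi' hj'
    have h5 : (range 5).filter (fun i => (n + 2 * i).Prime) ⊆ ((range 5).erase i).erase j := by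
      intro t ht
      rw [mem_filter] at ht
      rw [mem_erase, mem_erase]
      exact ⟨fun e => hj' (e ▸ ht.2), fun e => hi' (e ▸ ht.2), ht.1⟩
    have h6 := card_le_card h5
    rw [card_erase_of_mem (mem_erase.2 ⟨hij.symm, mem_range.2 hj⟩), card_erase_of_mem (mem_range.2 hi), card_range] at h6
    omega
  have hmod : n % 3 = 0 ∨ n % 3 = 1 ∨ n % 3 = 2 := by omega
  rcases hmod with h0 | h0 | h0
  · exact absurd (hno 0 3 (by norm_num) (by norm_num) (by norm_num) (h3 _ (by omega) (by omega))
      (h3 _ (by omega) (by omega))) id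
  · exact absurd (hno 1 4 (by norm_num) (by norm_num) (by norm_num) (h3 _ (by omega) (by omega))
      (h3 _ (by omega) (by omega))) id
  · have hmid : ¬ (n + 2 * 2).Prime := h3 _ (by omega) (by omega)
    refine ⟨?_, ?_, ?_, ?_⟩ <;> by_contra hcon
    · exact hno 2 0 (by norm_num) (by norm_num) (by norm_num) hmid hcon
    · exact hno 2 1 (by norm_num) (by norm_num) (by norm_num) hmid hcon
    · exact hno 2 3 (by norm_num) (by norm_num) (by norm_num) hmid hcon
    · exact hno 2 4 (by norm_num) (by norm_num) (by norm_num) hmid hcon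

/-- **Isolated rough quadruplets with restricted digits.** -/
theorem result (L E : ℕ) :
    ∃ c : ℝ, 0 < c ∧ ∃ r₀ : ℕ, 2 ≤ r₀ ∧ ∀ r : ℕ, r₀ ≤ r → ∀ g : ℕ, 2 ≤ g → ∃ κ C : ℝ, 0 < κ ∧ 0 < C ∧
      ∀ᶠ K : ℕ in atTop, ∀ N : ℕ, N ≤ g ^ (E * K) →
        ∀ A : ℕ → Finset ℕ, (∀ i < K, A i ⊆ range g) → (g : ℝ) ^ K ≤ Real.exp (c * K) * choices K A →
          ((∃ d ∈ A 0, ∀ e ∈ ({0, 2, 6, 8} : Finset ℕ), (N + d + L + e).Coprime g) → (∃ d ∈ A (K - 1), d ≠ 0) →
            κ * choices K A / (K : ℝ) ^ 4 ≤ count g K A fun j => IsolatedQuadruplet L (g ^ K) r (N + j)) ∧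
          (count g K A (fun j => 3 < N + j + L ∧ Good (N + j + L)) : ℝ) ≤ C * choices K A / (K : ℝ) ^ 4 := by
  classical
  obtain ⟨c, hc, r₀, hr₀, h⟩ := Pool.Agent.Q45.Tup.Dig.consec (H L) ⟨L, mem_insert_self _ _⟩ (adm L) (8 + 2 * L) E
  rw [card_H] at h
  refine ⟨c, hc, r₀, hr₀, fun r hr g hg => ?_⟩
  obtain ⟨κ, C, hκ, hC, h1⟩ := h r hr g hg
  refine ⟨κ, C, hκ, hC, ?_⟩
  filter_upwards [h1] with K hK N hN A hA hprod
  obtain ⟨l1, u1⟩ := hK N hN A hA hprod
  constructor
  · intro hd hd'
    obtain ⟨d, hd0, hd1⟩ := hd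
    refine (l1 ⟨d, hd0, fun e he => ?_⟩ hd').trans (Nat.cast_le.2 (Pool.Agent.Q45.Tup.Dig.count_mono
        (fun j _ hj => ?_)))
    · rw [mem_H] at he
      rcases he with rfl | rfl | rfl | rfl
      · exact hd1 0 (by decide)
      · rw [← add_assoc]; exact hd1 2 (by decide)
      · rw [← add_assoc]; exact hd1 6 (by decide)
      · rw [← add_assoc]; exact hd1 8 (by decide)
    · refine ⟨fun e he => ⟨fun hR => ?_, fun he' => ?_⟩, fun e he' => ?_⟩
      · by_contra hcon
        refine hj.2 e he ?_ hR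
        rw [mem_H]
        exact hcon
      · exact (hj.1 e ((mem_H L e).2 he')).1
      · exact (hj.1 e ((mem_H L e).2 he')).2
  · refine le_trans (Nat.cast_le.2 (Pool.Agent.Q45.Tup.Dig.count_mono (fun j _ hj => ?_))) u1
    obtain ⟨g1, g2, g3, g4⟩ := good_iff _ hj.1 hj.2
    intro e he
    rw [mem_H] at he
    rcases he with rfl | rfl | rfl | rfl
    · exact g1
    · rw [← add_assoc]; exact g2
    · rw [← add_assoc]; exact g3
    · rw [← add_assoc]; exact g4

end Pool.Agent.Results.MP_fc51f7_nt.ConsecutiveRoughQuadruplets
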