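import Pool.Agent.H358R5.Gaps

/-!
# Four primes in intervals of length 4209616, and in few linear forms

(1) `H₃ ≤ 4209616`: for every `ε > 0` and all large `x` at least `x ^ (1 - ε)` of the primes `p ≤ x` are the first of four
consecutive primes in an interval of length `4209616` (the problem asks for infinitely many intervals of length `8`).

(2) Every admissible set of `290687` integers contains four elements which are realised by four consecutive primes:
`n + s`, for at least `x ^ (1 - ε)` of the `n ≤ x`, for arbitrarily large `x`.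

(3) Among any `290687` linear forms `a n + b` which form an admissible system at least four are prime at the same time, for
at least `x ^ (1 - ε)` of the `n ≤ x`, for all large `x`.

These are consequences of the development `Pool.Agent.H358R5` of the starting library (a sieve of Maynard's kind, with which
`log K ≥ 4 m + 0.58` linear forms suffice for `m + 1` primes), which were never handed in for four primes.
-/

set_option autoImplicit false

open Finset Filter

namespace Pool.Agent.Results.MP_fc51f7_nt.FourPrimesInShortIntervals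

/-- The integers `n + s`, `s ∈ S`, are consecutive primes: all are primes, and every prime between two of them is one of
them. -/
def ConsecutivePrimes (n : ℕ) (S : Finset ℤ) : Prop :=
  (∀ s ∈ S, ∃ p : ℕ, p.Prime ∧ (p : ℤ) = n + s) ∧
    ∀ p : ℕ, p.Prime → (∃ s ∈ S, ∃ t ∈ S, (n : ℤ) + s ≤ p ∧ (p : ℤ) ≤ n + t) → ∃ s ∈ S, (p : ℤ) = n + s

/-- **Four primes.** `p_k` is `Nat.nth Nat.Prime k`. -/
theorem result :
    (∀ ε : ℝ, 0 < ε → ∀ᶠ x : ℝ in atTop,
      x ^ (1 - ε) ≤ (Set.ncard {k : ℕ | (Nat.nth Nat.Prime k : ℝ) ≤ x ∧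
        Nat.nth Nat.Prime (k + 3) ≤ Nat.nth Nat.Prime k + 4209616} : ℝ)) ∧
    (∀ H : Finset ℤ, 290687 ≤ H.card → (∀ p : ℕ, p.Prime → ∃ r : ℤ, ∀ h ∈ H, ¬ (p : ℤ) ∣ r + h) →
      ∃ S : Finset ℤ, S ⊆ H ∧ S.card = 4 ∧ ∀ ε : ℝ, 0 < ε → ∃ᶠ x : ℝ in atTop,
        x ^ (1 - ε) ≤ (Set.ncard {n : ℕ | (n : ℝ) ≤ x ∧ ConsecutivePrimes n S} : ℝ)) ∧
    (∀ (a b : Fin 290687 → ℕ), (∀ i, 1 ≤ a i) → (∀ i j, i ≠ j → a i * b j ≠ a j * b i) →
      (∀ p : ℕ, p.Prime → ∃ n : ℕ, ∀ i, ¬ p ∣ a i * n + b i) → ∀ ε : ℝ, 0 < ε → ∀ᶠ x : ℝ in atTop,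
        x ^ (1 - ε) ≤ (Set.ncard {n : ℕ | 1 ≤ n ∧ (n : ℝ) ≤ x ∧
          4 ≤ Set.ncard {i : Fin 290687 | (a i * n + b i).Prime}} : ℝ)) := by
  have hlog : 4 * ((3 : ℕ) : ℝ) + 29 / 50 ≤ Real.log (290687 : ℕ) := by
    have := Pool.Agent.H358R5.LOG_proof.2
    push_cast
    exact this
  refine ⟨Pool.Agent.H358R5.gaps4, ?_, ?_⟩
  · intro H hH hadm
    refine Pool.Agent.H358R5.pattern_many 3 (by norm_num) H (hlog.trans ?_) hadm
    exact Real.log_le_log (by norm_num) (by exact_mod_cast hH)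
  · intro a b ha hne hloc ε hε
    exact Pool.Agent.H358R5.forms_many 3 290687 (by norm_num) hlog a b ha hne hloc ε hε

end Pool.Agent.Results.MP_fc51f7_nt.FourPrimesInShortIntervals
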