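import Pool.Agent.Q45.Tup.AP

/-!
# Five consecutive odd integers containing four primes: long narrow progressions

`n` is good if `n` is odd and at least four of `n, n + 2, n + 4, n + 6, n + 8` are primes. Sieve methods give the upper
bound `O (X / log ^ 4 X)` for the number of good `n` in an interval of length `X`, the conjectured order of magnitude.

For all `k` and `δ > 0` there is `D` such that for all large `X`, ALL `A` and EVERY set `S` of good integers of the
interval `(A, A + X]`: all elements of `S` with at most `δ X / log ^ 4 X` exceptions are terms of `k`-term progressions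
of elements of `S` with difference at most `log ^ D X`. The same is true for the integers `n` such that
`n, n + 2, n + 6, n + 8` have no prime factor `≤ X ^ κ` (`κ > 0` arbitrarily small), of which there are more than
`c X / log ^ 4 X`.

The proof uses Szemerédi's theorem relative to sifted sets, with narrow progressions, of the starting library
(`Pool.Agent.Y843.HS.fin`).
-/

set_option autoImplicit false

open Finset Filter

namespace Pool.Agent.Results.MP_fc51f7_nt.GoodSetsOnProgressions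

/-- `n` is odd and at least four of `n, n + 2, n + 4, n + 6, n + 8` are primes -/
def Good (n : ℕ) : Prop := Odd n ∧ 4 ≤ ((range 5).filter (fun i => (n + 2 * i).Prime)).card

/-- `p` is one of the terms of a `k`-term arithmetic progression with a difference between `1` and `D`, all terms of
which belong to `S` -/
def OnAP (k : ℕ) (D : ℝ) (S : Set ℕ) (p : ℕ) : Prop :=
  ∃ a d : ℕ, 1 ≤ d ∧ (d : ℝ) ≤ D ∧ (∀ j < k, a + j * d ∈ S) ∧ ∃ j < k, p = a + j * d

/-- `n`, `n + 2`, `n + 6` and `n + 8` have no prime factor `≤ y` -/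
def RoughGood (y : ℝ) (n : ℕ) : Prop :=
  ∀ h ∈ ({0, 2, 6, 8} : Finset ℕ), ∀ q : ℕ, q.Prime → q ∣ n + h → y < q

lemma onAP_iff (k : ℕ) (D : ℝ) (S : Finset ℕ) (p : ℕ) : OnAP k D (S : Set ℕ) p ↔ Pool.Agent.Q45.Tup.OnAP k D S p := by
  unfold OnAP Pool.Agent.Q45.Tup.OnAP
  simp only [mem_coe]

lemma adm (q : ℕ) (hq : q.Prime) : ∃ m : ℕ, ∀ h ∈ ({0, 2, 6, 8} : Finset ℕ), ¬ q ∣ m + h := by
  by_cases h5 : q < 5
  · have h2 := hq.two_le
    interval_cases q
    · exact ⟨1, by decide⟩
    · exact ⟨2, by decide⟩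
    · exact absurd hq (by norm_num)
  · by_contra hcon
    push Not at hcon
    have h1 := Pool.Agent.Q45.Tup.Z_card_le (H := ({0, 2, 6, 8} : Finset ℕ)) (q := q) hq.pos hcon
    have h3 : ({0, 2, 6, 8} : Finset ℕ).card = 4 := by decide
    omega

/-- a good integer `n > 3` is the first member of a prime quadruplet -/
lemma good_iff (n : ℕ) (hn : 3 < n) (h : Good n) : ∀ h ∈ ({0, 2, 6, 8} : Finset ℕ), (n + h).Prime := by
  obtain ⟨-, h4⟩ := h
  have h3 : ∀ m : ℕ, 3 < m → 3 ∣ m → ¬ m.Prime := by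
    intro m hm hd hp
    have := (Nat.prime_dvd_prime_iff_eq Nat.prime_three hp).1 hd
    omega
  -- the middle element is not a prime
  have hno : ∀ i j : ℕ, i < 5 → j < 5 → i ≠ j → ¬ (n + 2 * i).Prime → ¬ (n + 2 * j).Prime → False := by
    intro i j hi hj hij hi' hj'
    have h5 : (range 5).filter (fun i => (n + 2 * i).Prime) ⊆ ((range 5).erase i).erase j := by
      intro t ht
      rw [mem_filter] at ht
      rw [mem_erase, mem_erase]
      exact ⟨fun e => hj' (e ▸ ht.2), fun e => hi' (e ▸ ht.2), ht.1⟩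
    have h6 := card_le_card h5
    rw [card_erase_of_mem (mem_erase.2 ⟨hij.symm, mem_range.2 hj⟩), card_erase_of_mem (mem_range.2 hi), card_range] at h6
    omega
  have hmod : n % 3 = 0 ∨ n % 3 = 1 ∨ n % 3 = 2 := by omega
  rcases hmod with h0 | h0 | h0
  · exact absurd (hno 0 3 (by norm_num) (by norm_num) (by norm_num) (h3 _ (by omega) (by omega))
      (h3 _ (by omega) (by omega))) id
  · exact absurd (hno 1 4 (by norm_num) (by norm_num) (by norm_num) (h3 _ (by omega) (by omega))
      (h3 _ (by omega) (by omega))) id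
  · have hmid : ¬ (n + 2 * 2).Prime := h3 _ (by omega) (by omega)
    intro h hh
    simp only [mem_insert, mem_singleton] at hh
    by_contra hcon
    rcases hh with rfl | rfl | rfl | rfl
    · exact hno 2 0 (by norm_num) (by norm_num) (by norm_num) hmid hcon
    · exact hno 2 1 (by norm_num) (by norm_num) (by norm_num) hmid hcon
    · exact hno 2 3 (by norm_num) (by norm_num) (by norm_num) hmid hcon
    · exact hno 2 4 (by norm_num) (by norm_num) (by norm_num) hmid hcon

/-- **Good integers and rough quadruplets on narrow progressions.** -/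
theorem result (k : ℕ) (hk : 1 ≤ k) (δ : ℝ) (hδ : 0 < δ) :
    -- good integers
    (∃ D X₀ : ℕ, ∀ X : ℕ, X₀ ≤ X → ∀ A : ℕ, ∀ S : Set ℕ, (∀ n ∈ S, A < n ∧ n ≤ A + X ∧ Good n) →
      (Set.ncard {n : ℕ | n ∈ S ∧ ¬ OnAP k (Real.log X ^ D) S n} : ℝ) ≤ δ * (X / Real.log X ^ 4)) ∧
    -- rough quadruplets
    (∀ κ : ℝ, 0 < κ → ∃ D X₀ : ℕ, ∀ X : ℕ, X₀ ≤ X → ∀ A : ℕ, ∀ S : Set ℕ,
      (∀ n ∈ S, A < n ∧ n ≤ A + X ∧ RoughGood ((X : ℝ) ^ κ) n) →
      (Set.ncard {n : ℕ | n ∈ S ∧ ¬ OnAP k (Real.log X ^ D) S n} : ℝ) ≤ δ * (X / Real.log X ^ 4)) := by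
  classical
  have e4 : ({0, 2, 6, 8} : Finset ℕ).card = 4 := by decide
  constructor
  · obtain ⟨D, X₁, h⟩ := Pool.Agent.Q45.Tup.rough {0, 2, 6, 8} adm k hk (1 / 2) (δ / 2) (by norm_num) (by positivity)
    rw [e4] at h
    obtain ⟨X₂, h2⟩ := Pool.Agent.Q45.Tup.sqrt_small 4 (δ / 4) (by positivity)
    refine ⟨D, max (max X₁ X₂) 16, fun X hX A S hS => ?_⟩
    have hX1 : X₁ ≤ X := (le_max_left _ _).trans ((le_max_left _ _).trans hX)
    have hX2 : X₂ ≤ X := (le_max_right _ _).trans ((le_max_left _ _).trans hX)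
    have hX3 : 16 ≤ X := (le_max_right _ _).trans hX
    have hfin : S.Finite := (finite_toSet (Ioc A (A + X))).subset (fun n hn => by
        rw [mem_coe, mem_Ioc]
        exact ⟨(hS n hn).1, (hS n hn).2.1⟩)
    obtain ⟨S', rfl⟩ : ∃ S' : Finset ℕ, S = (S' : Set ℕ) := ⟨hfin.toFinset, by simp⟩
    simp only [onAP_iff, mem_coe] at hS ⊢
    have h3 := h2 X hX2
    have h4 := Pool.Agent.Q45.Tup.bad_split k (Real.log X ^ D) S' ((X : ℝ) ^ (1 / 2 : ℝ)) (by positivity)
    have h16 : (4 : ℝ) ≤ (X : ℝ) ^ (1 / 2 : ℝ) := by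
      have : (16 : ℝ) ^ (1 / 2 : ℝ) = 4 := by
        rw [show (16 : ℝ) = 4 ^ (2 : ℝ) by norm_num, ← Real.rpow_mul (by norm_num)]
        norm_num
      rw [← this]
      exact Real.rpow_le_rpow (by norm_num) (by exact_mod_cast hX3) (by norm_num)
    have h5 := h X hX1 A (S'.filter (fun n : ℕ => (X : ℝ) ^ (1 / 2 : ℝ) < n)) (by
      intro n hn
      rw [mem_filter] at hn
      obtain ⟨h6, h7⟩ := hn
      obtain ⟨h8, h9, h10⟩ := hS n h6
      refine ⟨h8, h9, fun h hh q hq hd => ?_⟩
      have hn3 : 3 < n := by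
        have : (3 : ℝ) < n := by linarith
        exact_mod_cast this
      have := (Nat.prime_dvd_prime_iff_eq hq (good_iff n hn3 h10 h hh)).1 hd
      rw [this]
      push_cast
      have : (0 : ℝ) ≤ h := Nat.cast_nonneg h
      linarith)
    linarith
  · intro κ hκ
    obtain ⟨D, X₀, h⟩ := Pool.Agent.Q45.Tup.rough {0, 2, 6, 8} adm k hk κ δ hκ hδ
    rw [e4] at h
    refine ⟨D, X₀, fun X hX A S hS => ?_⟩
    have hfin : S.Finite := (finite_toSet (Ioc A (A + X))).subset (fun n hn => by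
        rw [mem_coe, mem_Ioc]
        exact ⟨(hS n hn).1, (hS n hn).2.1⟩)
    obtain ⟨S', rfl⟩ : ∃ S' : Finset ℕ, S = (S' : Set ℕ) := ⟨hfin.toFinset, by simp⟩
    simp only [onAP_iff, mem_coe] at hS ⊢
    exact h X hX A S' hS

end Pool.Agent.Results.MP_fc51f7_nt.GoodSetsOnProgressions
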