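import Pool.Agent.H661R3.OP.Final

/-!
# Five consecutive odd integers, four of which have no small prime factor: multiplicative signs

Let `S` be a set of `1` or `3` of the positions `0, 2, 6, 8`, and let `f` be an arbitrary completely multiplicative function
with values `1` and `-1` which takes the value `-1` at some prime `p ≡ 1 (mod q)` of a suitable range (for example the
Liouville function). Then each of the two signs is the value of the product of the `f (n + h)`, `h ∈ S`, for at least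
`x ^ (1 - ε)` of the `n ≤ x` for which `n`, `n + 2`, `n + 6` and `n + 8` have no prime factor `≤ x ^ δ`. So at any one, and in
any three, of the four places both parities of the number of prime factors occur; for good `n` the four numbers of prime
factors are equal to `1`.
-/

set_option autoImplicit false

open Finset

namespace Pool.Agent.Results.MP_fc51f7_nt.RoughQuadrupletSigns

/-- `n`, `n + 2`, `n + 6`, `n + 8` have no prime factor `≤ y` -/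
def RoughQuadruplet (y : ℝ) (n : ℕ) : Prop :=
  ∀ h ∈ ({0, 2, 6, 8} : Finset ℕ), ∀ p : ℕ, p.Prime → p ∣ n + h → y < p

/-- **Signs at rough quadruplets.** -/
theorem result :
    -- completely multiplicative functions
    (∀ S : Finset ℕ, S ⊆ {0, 2, 6, 8} → Odd S.card →
      ∃ q : ℕ, 0 < q ∧ ∀ ε : ℝ, 0 < ε → ∃ δ : ℝ, 0 < δ ∧ ∃ x₀ : ℝ, ∀ x : ℝ, x₀ ≤ x →
      ∀ f : ℕ → ℤ, (∀ n, n ≠ 0 → f n = 1 ∨ f n = -1) → (∀ m n, m ≠ 0 → n ≠ 0 → f (m * n) = f m * f n) →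
      (∃ p : ℕ, p.Prime ∧ x ^ δ < p ∧ (p : ℝ) ≤ x ^ (3 / 2 * δ) ∧ p ≡ 1 [MOD q] ∧ f p = -1) →
      ∀ s : ℤ, (s = 1 ∨ s = -1) →
      x ^ (1 - ε) ≤ (({n : ℕ | 0 < n ∧ (n : ℝ) ≤ x ∧ RoughQuadruplet (x ^ δ) n ∧
        ∏ h ∈ S, f (n + h) = s}.ncard : ℕ) : ℝ)) ∧
    -- the number of prime factors
    (∀ S : Finset ℕ, S ⊆ {0, 2, 6, 8} → Odd S.card → ∀ ε : ℝ, 0 < ε → ∃ (R : ℕ) (δ : ℝ), 0 < δ ∧
      ∃ x₀ : ℝ, ∀ x : ℝ, x₀ ≤ x →
      x ^ (1 - ε) ≤ (({n : ℕ | 0 < n ∧ (n : ℝ) ≤ x ∧ RoughQuadruplet (x ^ δ) n ∧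
        (∀ h ∈ ({0, 2, 6, 8} : Finset ℕ), ArithmeticFunction.cardFactors (n + h) ≤ R) ∧
        Odd (∑ h ∈ S, ArithmeticFunction.cardFactors (n + h))}.ncard : ℕ) : ℝ) ∧
      x ^ (1 - ε) ≤ (({n : ℕ | 0 < n ∧ (n : ℝ) ≤ x ∧ RoughQuadruplet (x ^ δ) n ∧
        (∀ h ∈ ({0, 2, 6, 8} : Finset ℕ), ArithmeticFunction.cardFactors (n + h) ≤ R) ∧
        Even (∑ h ∈ S, ArithmeticFunction.cardFactors (n + h))}.ncard : ℕ) : ℝ)) := by
  have hadm : ∀ p : ℕ, p.Prime → ∃ n : ℤ, ∀ h ∈ ({0, 2, 6, 8} : Finset ℕ), ¬ (p : ℤ) ∣ n + h := by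
    refine Pool.Agent.H661R3.OP.adm_of_small _ 5 (by decide) ?_
    intro p hp hp5
    have h2 := hp.two_le
    interval_cases p
    · exact ⟨1, by decide⟩
    · exact ⟨2, by decide⟩
    · exact absurd hp (by norm_num)
  refine ⟨fun S hS hodd => Pool.Agent.H661R3.OP.multNat Pool.Agent.H661R3.OP.genf {0, 2, 6, 8} hadm S hS hodd, ?_⟩
  intro S hS hodd ε hε
  obtain ⟨R, δ, hδ, x₀, h⟩ := Pool.Agent.H661R3.OP.shiftsNat Pool.Agent.H661R3.OP.liou {0, 2, 6, 8} hadm S hS hodd ε hε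
  refine ⟨R, δ, hδ, x₀, fun x hx => ?_⟩
  have e : ∀ (Q : ℕ → Prop), {n : ℕ | 0 < n ∧ (n : ℝ) ≤ x ∧
      (∀ h ∈ ({0, 2, 6, 8} : Finset ℕ), ArithmeticFunction.cardFactors (n + h) ≤ R ∧
        ∀ p : ℕ, p.Prime → p ∣ n + h → x ^ δ < p) ∧ Q n} =
      {n : ℕ | 0 < n ∧ (n : ℝ) ≤ x ∧ RoughQuadruplet (x ^ δ) n ∧
        (∀ h ∈ ({0, 2, 6, 8} : Finset ℕ), ArithmeticFunction.cardFactors (n + h) ≤ R) ∧ Q n} := by
    intro Q
    ext n
    constructor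
    · rintro ⟨h1, h2, h3, h4⟩
      exact ⟨h1, h2, fun h hh => (h3 h hh).2, fun h hh => (h3 h hh).1, h4⟩
    · rintro ⟨h1, h2, h3, h4, h5⟩
      exact ⟨h1, h2, fun h hh => ⟨h4 h hh, h3 h hh⟩, h5⟩
  have h1 := h x hx
  rw [e, e] at h1
  exact h1

end Pool.Agent.Results.MP_fc51f7_nt.RoughQuadrupletSigns
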